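import Pool.Agent.helper34.EL.Defs
import Pool.Agent.helper96.XL.SAW
import Pool.Agent.helper9.XL.EIG
import Pool.Agent.helper97.XL.NZ

/-!
# XL module DET: linear relations of the sawtooth function detect every odd distribution
-/

set_option autoImplicit false

namespace Pool.Agent.helper34.EL

open Finset Pool.Agent.helper34.DH

/-- twisted sum of the conjugates of a function -/
noncomputable def DET_tw (n : ℕ) [NeZero n] (χ : DirichletCharacter ℂ n) (g : ZMod n → ℚ)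
    (x : ZMod n) : ℂ :=
  ∑ u : (ZMod n)ˣ, (χ (u : ZMod n))⁻¹ * ((g ((u : ZMod n) * x) : ℚ) : ℂ)

theorem DET_saw (n : ℕ) [NeZero n] (χ : DirichletCharacter ℂ n) (x : ZMod n) :
    DET_tw n χ (saw n) x = sawχ n χ x := rfl

theorem DET_mul (n : ℕ) [NeZero n] (χ : DirichletCharacter ℂ n) (g : ZMod n → ℚ)
    (v : (ZMod n)ˣ) (x : ZMod n) :
    DET_tw n χ g ((v : ZMod n) * x) = χ (v : ZMod n) * DET_tw n χ g x := by
  unfold DET_tw
  rw [mul_sum]
  rw [← Equiv.sum_comp (Equiv.mulRight v)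
    (fun u : (ZMod n)ˣ => χ (v : ZMod n) * ((χ (u : ZMod n))⁻¹ * ((g ((u : ZMod n) * x) : ℚ) : ℂ)))]
  refine sum_congr rfl fun u _ => ?_
  have hv : χ (v : ZMod n) ≠ 0 := by
    intro h
    have := v.isUnit.map χ
    rw [h] at this
    exact not_isUnit_zero this
  simp only [Equiv.coe_mulRight, Units.val_mul, map_mul, mul_inv]
  rw [mul_assoc (u : ZMod n)]
  field_simp

theorem DET_even (n : ℕ) [NeZero n] (χ : DirichletCharacter ℂ n) (g : ZMod n → ℚ)
    (hodd : ∀ x, g (-x) = -g x) (hχ : χ.Even) (x : ZMod n) : DET_tw n χ g x = 0 := by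
  have h1 : DET_tw n χ g (((-1 : (ZMod n)ˣ) : ZMod n) * x) = DET_tw n χ g x := by
    rw [DET_mul]
    have : χ ((-1 : (ZMod n)ˣ) : ZMod n) = 1 := by
      rw [Units.val_neg, Units.val_one]; exact hχ
    rw [this, one_mul]
  have h2 : DET_tw n χ g (((-1 : (ZMod n)ˣ) : ZMod n) * x) = -DET_tw n χ g x := by
    unfold DET_tw
    rw [← sum_neg_distrib]
    refine sum_congr rfl fun u _ => ?_
    have : (u : ZMod n) * (((-1 : (ZMod n)ˣ) : ZMod n) * x) = -((u : ZMod n) * x) := by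
      push_cast; ring
    rw [this, hodd]
    push_cast
    ring
  rw [h1] at h2
  linear_combination h2 / 2

theorem DET_dist (n : ℕ) [NeZero n] (χ : DirichletCharacter ℂ n) (g : ZMod n → ℚ) (q : ℕ)
    (hq : DistAt n q g) (x : ZMod n) :
    ∑ y ∈ univ.filter (fun y : ZMod n => (q : ZMod n) * y = q * x), DET_tw n χ g y =
      DET_tw n χ g (q * x) := by
  unfold DET_tw
  rw [sum_comm]
  refine sum_congr rfl fun u _ => ?_
  rw [← mul_sum]
  congr 1
  have h := hq ((u : ZMod n) * x)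
  have e : (q : ZMod n) * ((u : ZMod n) * x) = (u : ZMod n) * (q * x) := by ring
  rw [e] at h
  rw [← h]
  push_cast
  refine sum_bij' (fun y _ => (u : ZMod n) * y) (fun y _ => ((u⁻¹ : (ZMod n)ˣ) : ZMod n) * y)
    ?_ ?_ ?_ ?_ ?_
  · intro y hy
    simp only [mem_filter, mem_univ, true_and] at hy ⊢
    rw [← hy]; ring
  · intro y hy
    simp only [mem_filter, mem_univ, true_and] at hy ⊢
    calc (q : ZMod n) * (((u⁻¹ : (ZMod n)ˣ) : ZMod n) * y)
        = ((u⁻¹ : (ZMod n)ˣ) : ZMod n) * (q * y) := by ring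
      _ = ((u⁻¹ : (ZMod n)ˣ) : ZMod n) * ((u : ZMod n) * (q * x)) := by rw [hy]
      _ = q * x := by rw [← mul_assoc, Units.inv_mul, one_mul]
  · intro y _
    rw [← mul_assoc, Units.inv_mul, one_mul]
  · intro y _
    rw [← mul_assoc, Units.mul_inv, one_mul]
  · intro y _
    rfl

/-- sum over all characters -/
theorem DET_total (n : ℕ) [NeZero n] (g : ZMod n → ℚ) (x : ZMod n) :
    ∑ χ : DirichletCharacter ℂ n, DET_tw n χ g x = (n.totient : ℂ) * ((g x : ℚ) : ℂ) := by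
  unfold DET_tw
  rw [sum_comm]
  have h : ∀ u : (ZMod n)ˣ, ∑ χ : DirichletCharacter ℂ n,
      (χ (u : ZMod n))⁻¹ * ((g ((u : ZMod n) * x) : ℚ) : ℂ) =
      if u = 1 then (n.totient : ℂ) * ((g x : ℚ) : ℂ) else 0 := by
    intro u
    rw [← sum_mul]
    have h2 := DirichletCharacter.sum_char_inv_mul_char_eq ℂ u.isUnit (1 : ZMod n)
    have h3 : ∀ χ : DirichletCharacter ℂ n, χ ((u : ZMod n)⁻¹) * χ (1 : ZMod n) =
        (χ (u : ZMod n))⁻¹ := by
      intro χ
      rw [map_one, mul_one]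
      have h4 : χ ((u : ZMod n)⁻¹) * χ (u : ZMod n) = 1 := by
        rw [← map_mul, ZMod.inv_mul_of_unit _ u.isUnit, map_one]
      exact eq_inv_of_mul_eq_one_left h4
    rw [sum_congr rfl (fun χ _ => h3 χ)] at h2
    rw [h2]
    by_cases hu : u = 1
    · subst hu
      simp
    · have : (u : ZMod n) ≠ 1 := by
        intro h; exact hu (Units.ext h)
      simp [hu, this]
  rw [sum_congr rfl (fun u _ => h u)]
  simp

/-- the relation kills every twisted sawtooth -/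
theorem DET_rel (n : ℕ) [NeZero n] (χ : DirichletCharacter ℂ n) {ι : Type} [Fintype ι]
    (a : ι → ZMod n) (ha : Rel n a) : ∑ i, sawχ n χ (a i) = 0 := by
  unfold sawχ
  rw [sum_comm]
  refine sum_eq_zero fun u _ => ?_
  rw [← mul_sum]
  have := ha u
  have h2 : ∑ i, ((saw n ((u : ZMod n) * a i) : ℚ) : ℂ) = 0 := by
    exact_mod_cast this
  rw [h2, mul_zero]

/-- conclusion from all characters -/
theorem DET_concl (n : ℕ) [NeZero n] (γ : ZMod n → ℚ) {ι : Type} [Fintype ι] (a : ι → ZMod n)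
    (h : ∀ χ : DirichletCharacter ℂ n, ∑ i, DET_tw n χ γ (a i) = 0) : ∑ i, γ (a i) = 0 := by
  have h1 : (n.totient : ℂ) * ((∑ i, γ (a i) : ℚ) : ℂ) = 0 := by
    push_cast
    rw [mul_sum]
    rw [sum_congr rfl (fun i _ => (DET_total n γ (a i)).symm), sum_comm]
    exact sum_eq_zero fun χ _ => h χ
  have h2 : (n.totient : ℂ) ≠ 0 := by
    exact_mod_cast (Nat.totient_pos.2 (Nat.pos_of_ne_zero (NeZero.ne n))).ne'
  have h3 := (mul_eq_zero.1 h1).resolve_left h2
  exact_mod_cast h3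

/-- an element reducing to zero modulo a divisor is a multiple of it -/
theorem DET_castHom (n m : ℕ) [NeZero n] (h : m ∣ n) (t : ZMod n)
    (ht : ZMod.castHom h (ZMod m) t = 0) : ∃ s : ℕ, t = ((m : ℕ) : ZMod n) * ((s : ℕ) : ZMod n) := by
  have h1 : ((t.val : ℕ) : ZMod m) = 0 := by
    have h2 := map_natCast (ZMod.castHom h (ZMod m)) t.val
    rw [ZMod.natCast_zmod_val] at h2
    rw [← h2, ht]
  obtain ⟨s, hs⟩ := (ZMod.natCast_eq_zero_iff _ _).1 h1
  refine ⟨s, ?_⟩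
  rw [← ZMod.natCast_zmod_val t, hs]
  push_cast
  ring

/-- elements of the same additive order are unit multiples of each other -/
theorem DET_order (n : ℕ) [NeZero n] (x y : ZMod n) (h : addOrderOf x = addOrderOf y) :
    ∃ u : (ZMod n)ˣ, x = (u : ZMod n) * y := by
  have hn : 0 < n := Nat.pos_of_ne_zero (NeZero.ne n)
  have hx := ZMod.addOrderOf_coe x.val hn.ne'
  have hy := ZMod.addOrderOf_coe y.val hn.ne'
  rw [ZMod.natCast_zmod_val] at hx hy
  set M := addOrderOf x with hM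
  have ex : n.gcd x.val * M = n := by rw [hx]; exact Nat.mul_div_cancel' (Nat.gcd_dvd_left _ _)
  have ey : n.gcd y.val * M = n := by
    rw [h, hy]; exact Nat.mul_div_cancel' (Nat.gcd_dvd_left _ _)
  have hM0 : 0 < M := by
    rcases Nat.eq_zero_or_pos M with h0 | h0
    · rw [h0] at ex; omega
    · exact h0
  have hg : n.gcd x.val = n.gcd y.val := Nat.eq_of_mul_eq_mul_right hM0 (ex.trans ey.symm)
  set g := n.gcd x.val with hgd
  have hg0 : 0 < g := Nat.gcd_pos_of_pos_left _ hn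
  obtain ⟨x', hx'⟩ : g ∣ x.val := Nat.gcd_dvd_right _ _
  obtain ⟨y', hy'⟩ : g ∣ y.val := by rw [hg]; exact Nat.gcd_dvd_right _ _
  have cx : Nat.Coprime x' M := by
    have h1 : g * Nat.gcd M x' = g * 1 := by
      rw [← Nat.gcd_mul_left, ← hx', ex, mul_one]
    have h2 : Nat.Coprime M x' := Nat.eq_of_mul_eq_mul_left hg0 h1
    exact h2.symm
  have cy : Nat.Coprime y' M := by
    have h1 : g * Nat.gcd M y' = g * 1 := by
      rw [← Nat.gcd_mul_left, ← hy', ex, mul_one, hg]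
    have h2 : Nat.Coprime M y' := Nat.eq_of_mul_eq_mul_left hg0 h1
    exact h2.symm
  have hMn : M ∣ n := ⟨g, by rw [mul_comm, ex]⟩
  obtain ⟨u, hu⟩ := ZMod.unitsMap_surjective hMn
    (ZMod.unitOfCoprime x' cx * (ZMod.unitOfCoprime y' cy)⁻¹)
  refine ⟨u, ?_⟩
  have h1 : ZMod.castHom hMn (ZMod M) ((u : ZMod n) * ((y' : ℕ) : ZMod n) - ((x' : ℕ) : ZMod n)) = 0 := by
    rw [map_sub, map_mul, map_natCast, map_natCast]
    have h2 : ZMod.castHom hMn (ZMod M) (u : ZMod n) =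
        ((ZMod.unitOfCoprime x' cx * (ZMod.unitOfCoprime y' cy)⁻¹ : (ZMod M)ˣ) : ZMod M) := by
      rw [← hu]; rfl
    rw [h2, Units.val_mul, mul_assoc]
    have h3 : (((ZMod.unitOfCoprime y' cy)⁻¹ : (ZMod M)ˣ) : ZMod M) * ((y' : ℕ) : ZMod M) = 1 := by
      rw [← ZMod.coe_unitOfCoprime y' cy, Units.inv_mul]
    rw [h3, mul_one, ZMod.coe_unitOfCoprime, sub_self]
  obtain ⟨s, hs⟩ := DET_castHom n M hMn _ h1
  have h4 : ((g : ℕ) : ZMod n) * ((M : ℕ) : ZMod n) = 0 := by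
    rw [← Nat.cast_mul, ex, ZMod.natCast_self]
  have h5 : x = ((g : ℕ) : ZMod n) * ((x' : ℕ) : ZMod n) := by
    rw [← Nat.cast_mul, ← hx', ZMod.natCast_zmod_val]
  have h6 : y = ((g : ℕ) : ZMod n) * ((y' : ℕ) : ZMod n) := by
    rw [← Nat.cast_mul, ← hy', ZMod.natCast_zmod_val]
  rw [h5, h6]
  linear_combination (-((g : ℕ) : ZMod n)) * hs - ((s : ℕ) : ZMod n) * h4

/-- proportionality to the twisted sawtooth -/
theorem DET_prop (n : ℕ) [NeZero n] (χ : DirichletCharacter ℂ n) (hχ : χ.Odd) (S : Set ℕ)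
    (𝒳 : Set (ZMod n)) (hS : ∀ q ∈ S, q.Prime ∧ q ∣ n)
    (hunit : ∀ u : (ZMod n)ˣ, ∀ x ∈ 𝒳, (u : ZMod n) * x ∈ 𝒳)
    (hfib : ∀ q ∈ S, ∀ x ∈ 𝒳, ∀ y : ZMod n, (q : ZMod n) * y = q * x → y ∈ 𝒳)
    (hmul : ∀ q ∈ S, ∀ x ∈ 𝒳, (q : ZMod n) * x ∈ 𝒳)
    (γ : ZMod n → ℚ) (hdist : ∀ q ∈ S, DistAt n q γ)
    (M₀ : ℕ) (hM₀ : ∀ x ∈ 𝒳, χ.conductor ∣ addOrderOf x →
      (∀ q ∈ S, q ∣ addOrderOf x → ¬ χ.conductor ∣ addOrderOf x / q) → addOrderOf x = M₀)
    (hM₀n : M₀ ∣ n) (hM₀c : χ.conductor ∣ M₀) (hM₀p : ∀ r : ℕ, r.Prime → r ∣ M₀ → r ∣ χ.conductor)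
    {ι : Type} [Fintype ι] (a : ι → ZMod n) (ha : Rel n a) (hmem : ∀ i, a i ∈ 𝒳) :
    ∑ i, DET_tw n χ γ (a i) = 0 := by
  classical
  have hn : 0 < n := Nat.pos_of_ne_zero (NeZero.ne n)
  obtain ⟨k, hk⟩ := hM₀n
  have hM₀0 : M₀ ≠ 0 := by rintro rfl; simp at hk; omega
  have hk0 : k ≠ 0 := by rintro rfl; simp at hk; omega
  have hord : addOrderOf ((k : ℕ) : ZMod n) = M₀ := by
    rw [ZMod.addOrderOf_coe _ hn.ne', hk, Nat.gcd_eq_right (Dvd.intro_left _ rfl)]
    exact Nat.mul_div_cancel _ (Nat.pos_of_ne_zero hk0)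
  set x₀ : ZMod n := (k : ZMod n) with hx₀
  have hne : sawχ n χ x₀ ≠ 0 := by
    refine sawχ_ne_zero n χ hχ x₀ ?_ ?_
    · rw [hord]; exact hM₀c
    · intro r hr h; rw [hord] at h; exact hM₀p r hr h
  set c : ℂ := DET_tw n χ γ x₀ / sawχ n χ x₀ with hc
  have key : ∀ x ∈ 𝒳, DET_tw n χ γ x - c * DET_tw n χ (saw n) x = 0 := by
    refine eig n χ S 𝒳 hS hunit hfib hmul (fun x => DET_tw n χ γ x - c * DET_tw n χ (saw n) x)
      ?_ ?_ M₀ hM₀ ?_
    · intro u x
      simp only [DET_mul]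
      ring
    · intro q hq x _
      simp only [sum_sub_distrib, ← mul_sum]
      rw [DET_dist n χ γ q (hdist q hq), DET_dist n χ (saw n) q (saw_dist n q (hS q hq).2)]
    · intro x _ hx
      obtain ⟨u, hu⟩ := DET_order n x x₀ (hx.trans hord.symm)
      rw [hu]
      simp only [DET_mul]
      have : DET_tw n χ γ x₀ - c * DET_tw n χ (saw n) x₀ = 0 := by
        rw [hc, DET_saw]
        field_simp
        ring
      linear_combination (χ (u : ZMod n)) * this
  have h3 : ∀ i, DET_tw n χ γ (a i) = c * sawχ n χ (a i) := fun i => by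
    have := key (a i) (hmem i)
    rw [DET_saw] at this
    linear_combination this
  rw [sum_congr rfl (fun i _ => h3 i), ← mul_sum, DET_rel n χ a ha, mul_zero]

theorem detectA (n : ℕ) [NeZero n] (γ : ZMod n → ℚ) (hodd : ∀ x, γ (-x) = -γ x)
    (hdist : ∀ q : ℕ, q.Prime → q ∣ n → DistAt n q γ) {ι : Type} [Fintype ι] (a : ι → ZMod n)
    (ha : Rel n a) : ∑ i, γ (a i) = 0 := by
  refine DET_concl n γ a fun χ => ?_
  rcases χ.even_or_odd with hχ | hχ
  · exact sum_eq_zero fun i _ => DET_even n χ γ hodd hχ _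
  have hn : 0 < n := Nat.pos_of_ne_zero (NeZero.ne n)
  refine DET_prop n χ hχ {q | q.Prime ∧ q ∣ n} Set.univ (fun q hq => hq) (fun _ _ _ => trivial)
    (fun _ _ _ _ _ _ => trivial) (fun _ _ _ _ => trivial) γ (fun q hq => hdist q hq.1 hq.2)
    χ.conductor ?_ χ.conductor_dvd_level dvd_rfl (fun r _ h => h) a ha (fun _ => trivial)
  intro x _ hcx hq
  obtain ⟨k, hk⟩ := hcx
  have hM : addOrderOf x ∣ n := by
    have := addOrderOf_dvd_card (x := x)
    rwa [ZMod.card] at this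
  by_contra hne
  have hk1 : k ≠ 1 := by rintro rfl; rw [mul_one] at hk; exact hne hk
  obtain ⟨q, hqp, k', rfl⟩ := Nat.exists_prime_and_dvd hk1
  have hqM : q ∣ addOrderOf x := by rw [hk]; exact ⟨χ.conductor * k', by ring⟩
  refine hq q ⟨hqp, hqM.trans hM⟩ hqM ⟨k', ?_⟩
  rw [hk]
  rw [show χ.conductor * (q * k') = q * (χ.conductor * k') by ring]
  exact Nat.mul_div_cancel_left _ hqp.pos

/-- the exact `p`-order in terms of the value -/
theorem DET_val (n p : ℕ) [NeZero n] (hp : p.Prime) (hpn : p ∣ n) (x : ZMod n) :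
    ((n / p : ℕ) : ZMod n) * x = 0 ↔ p ∣ x.val := by
  have hn : 0 < n := Nat.pos_of_ne_zero (NeZero.ne n)
  obtain ⟨k, hk⟩ := hpn
  have hk0 : 0 < k := by
    rcases Nat.eq_zero_or_pos k with h0 | h0
    · rw [h0] at hk; omega
    · exact h0
  have e1 : n / p = k := by rw [hk]; exact Nat.mul_div_cancel_left _ hp.pos
  rw [e1]
  conv_lhs => rw [← ZMod.natCast_zmod_val x, ← Nat.cast_mul, ZMod.natCast_eq_zero_iff]
  have h1 : n ∣ k * x.val ↔ k * p ∣ k * x.val := by rw [mul_comm k p, ← hk]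
  rw [h1]
  exact Nat.mul_dvd_mul_iff_left hk0

/-- sums over the group `K₀` of units congruent to `1` modulo `n'` -/
theorem DET_orbit (n p f n' : ℕ) [NeZero n] (hp : p.Prime) (hf : 0 < f) (hn : n = p ^ f * n')
    (hd : n' ∣ n) (γ : ZMod n → ℚ)
    (hsupp : ∀ x : ZMod n, ((n / p : ℕ) : ZMod n) * x = 0 → γ x = 0)
    (z : ZMod n) (hz : ((n / p : ℕ) : ZMod n) * z ≠ 0) (K : Finset (ZMod n)ˣ)
    (hK : ∀ k, k ∈ K ↔ ZMod.unitsMap hd k = 1) :
    ∑ k ∈ K, γ ((k : ZMod n) * z) = ∑ y ∈ univ.filter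
      (fun y : ZMod n => ((p ^ f : ℕ) : ZMod n) * y = ((p ^ f : ℕ) : ZMod n) * z), γ y := by
  classical
  have hn0 : 0 < n := Nat.pos_of_ne_zero (NeZero.ne n)
  have hpn0 : p ∣ n := by
    rw [hn]; exact Dvd.dvd.mul_right (dvd_pow_self p hf.ne') _
  have hn'0 : 0 < n' := by
    rcases Nat.eq_zero_or_pos n' with h0 | h0
    · rw [h0] at hn; omega
    · exact h0
  have hpz : ¬ p ∣ z.val := fun h => hz ((DET_val n p hp hpn0 z).2 h)
  have hcop : Nat.Coprime (p ^ f) z.val := Nat.Coprime.pow_left _ ((Nat.Prime.coprime_iff_not_dvd hp).2 hpz)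
  have hz0 : ((p ^ f : ℕ) : ZMod n) * ((n' : ℕ) : ZMod n) = 0 := by
    rw [← Nat.cast_mul, ← hn, ZMod.natCast_self]
  have hone : ∀ k : (ZMod n)ˣ, k ∈ K → ∃ s : ℕ, (k : ZMod n) = 1 + ((n' : ℕ) : ZMod n) * ((s : ℕ) : ZMod n) := by
    intro k hk
    have h1 : ZMod.castHom hd (ZMod n') ((k : ZMod n) - 1) = 0 := by
      rw [map_sub, map_one]
      have := congrArg (fun u : (ZMod n')ˣ => (u : ZMod n')) ((hK k).1 hk)
      simp only [Units.val_one] at this
      have e : ZMod.castHom hd (ZMod n') (k : ZMod n) = ((ZMod.unitsMap hd k : (ZMod n')ˣ) : ZMod n') := rfl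
      rw [e, this, sub_self]
    obtain ⟨s, hs⟩ := DET_castHom n n' hd _ h1
    exact ⟨s, by rw [← hs]; ring⟩
  have hfil : ∑ y ∈ univ.filter
      (fun y : ZMod n => ((p ^ f : ℕ) : ZMod n) * y = ((p ^ f : ℕ) : ZMod n) * z), γ y =
      ∑ y ∈ (univ.filter (fun y : ZMod n => ((p ^ f : ℕ) : ZMod n) * y =
        ((p ^ f : ℕ) : ZMod n) * z)).filter (fun y => ((n / p : ℕ) : ZMod n) * y ≠ 0), γ y := by
    symm
    refine sum_filter_of_ne fun y _ hy h => hy (hsupp y h)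
  rw [hfil]
  refine sum_bij (fun k _ => (k : ZMod n) * z) ?_ ?_ ?_ ?_
  · intro k hk
    obtain ⟨s, hs⟩ := hone k hk
    simp only [mem_filter, mem_univ, true_and]
    refine ⟨?_, ?_⟩
    · rw [hs]
      linear_combination ((s : ℕ) : ZMod n) * z * hz0
    · intro h
      apply hz
      have : (k : ZMod n) * (((n / p : ℕ) : ZMod n) * z) = 0 := by rw [← h]; ring
      exact (Units.mul_right_eq_zero k).1 this
  · intro k hk k' hk' h
    obtain ⟨s, hs⟩ := hone k hk
    obtain ⟨s', hs'⟩ := hone k' hk'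
    have h1 : ((n' : ℕ) : ZMod n) * (((s : ℕ) : ZMod n) - ((s' : ℕ) : ZMod n)) * z = 0 := by
      have : (k : ZMod n) * z = (k' : ZMod n) * z := h
      rw [hs, hs'] at this
      linear_combination this
    have h2 : (((n' : ℤ) * ((s : ℤ) - s') * (z.val : ℤ) : ℤ) : ZMod n) = 0 := by
      push_cast
      rw [ZMod.natCast_zmod_val]
      exact h1
    rw [ZMod.intCast_zmod_eq_zero_iff_dvd] at h2
    have h3 : (n' : ℤ) * (p ^ f : ℕ) ∣ (n' : ℤ) * (((s : ℤ) - s') * (z.val : ℤ)) := by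
      have : ((n : ℕ) : ℤ) = (n' : ℤ) * (p ^ f : ℕ) := by rw [hn]; push_cast; ring
      rw [← this]
      convert h2 using 1
      ring
    have h4 : ((p ^ f : ℕ) : ℤ) ∣ ((s : ℤ) - s') * (z.val : ℤ) :=
      (mul_dvd_mul_iff_left (by exact_mod_cast hn'0.ne')).1 h3
    have h5 : ((p ^ f : ℕ) : ℤ) ∣ ((s : ℤ) - s') := by
      refine IsCoprime.dvd_of_dvd_mul_right ?_ h4
      exact_mod_cast hcop.isCoprime
    obtain ⟨w, hw⟩ := h5
    apply Units.ext
    rw [hs, hs']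
    have h6 : ((s : ℕ) : ZMod n) - ((s' : ℕ) : ZMod n) = ((p ^ f : ℕ) : ZMod n) * (w : ZMod n) := by
      have := congrArg (fun t : ℤ => (t : ZMod n)) hw
      push_cast at this
      push_cast
      exact this
    linear_combination ((n' : ℕ) : ZMod n) * h6 + (w : ZMod n) * hz0
  · intro y hy
    simp only [mem_filter, mem_univ, true_and] at hy
    obtain ⟨hy1, hy2⟩ := hy
    -- `y - z` is a multiple of `n'`
    have h1 : ∃ w : ℕ, y - z = ((n' : ℕ) : ZMod n) * ((w : ℕ) : ZMod n) := by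
      have h2 : ((p ^ f * (y - z).val : ℕ) : ZMod n) = 0 := by
        rw [Nat.cast_mul, ZMod.natCast_zmod_val]
        linear_combination hy1
      rw [ZMod.natCast_eq_zero_iff] at h2
      have h3 : n' ∣ (y - z).val := by
        have h4 : p ^ f * n' ∣ p ^ f * (y - z).val := by rw [← hn]; exact h2
        exact (Nat.mul_dvd_mul_iff_left (pow_pos hp.pos f)).1 h4
      obtain ⟨w, hw⟩ := h3
      refine ⟨w, ?_⟩
      rw [← Nat.cast_mul, ← hw, ZMod.natCast_zmod_val]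
    obtain ⟨w, hw⟩ := h1
    obtain ⟨a, b, hab⟩ := hcop.isCoprime
    -- `k = 1 + n' b w`
    set k : ZMod n := 1 + ((n' : ℕ) : ZMod n) * ((b : ZMod n) * ((w : ℕ) : ZMod n)) with hk
    have hab' : (a : ZMod n) * ((p ^ f : ℕ) : ZMod n) + (b : ZMod n) * z = 1 := by
      have := congrArg (fun t : ℤ => (t : ZMod n)) hab
      push_cast at this
      rw [ZMod.natCast_zmod_val] at this
      push_cast
      exact this
    have hkz : k * z = y := by
      rw [hk]
      linear_combination (-1 : ZMod n) * hw + ((n' : ℕ) : ZMod n) * ((w : ℕ) : ZMod n) * hab' - (a : ZMod n) * ((w : ℕ) : ZMod n) * hz0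
    have hcast : ZMod.castHom hd (ZMod n') k = 1 := by
      rw [hk, map_add, map_one, map_mul, map_natCast, ZMod.natCast_self, zero_mul, add_zero]
    have hku : IsUnit k := by
      rw [← ZMod.natCast_zmod_val k, ZMod.isUnit_iff_coprime]
      have c1 : Nat.Coprime k.val n' := by
        rw [← ZMod.isUnit_iff_coprime]
        have h2 := map_natCast (ZMod.castHom hd (ZMod n')) k.val
        rw [ZMod.natCast_zmod_val, hcast] at h2
        rw [← h2]
        exact isUnit_one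
      have c2 : Nat.Coprime k.val (p ^ f) := by
        refine Nat.Coprime.pow_right _ (Nat.Coprime.symm ((Nat.Prime.coprime_iff_not_dvd hp).2 ?_))
        intro h
        apply hy2
        rw [← hkz, ← mul_assoc, (DET_val n p hp hpn0 k).2 h, zero_mul]
      have c3 : Nat.Coprime k.val (p ^ f * n') := Nat.Coprime.mul_right c2 c1
      rwa [← hn] at c3
    refine ⟨hku.unit, ?_, ?_⟩
    · rw [hK]
      apply Units.ext
      exact hcast
    · exact hkz
  · intro k _
    rfl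

/-- the case of a character of conductor prime to `p` -/
theorem DET_prime_to (n p f n' : ℕ) [NeZero n] (hp : p.Prime) (hf : 0 < f) (hn : n = p ^ f * n')
    (hpn : ¬ p ∣ n') (γ : ZMod n → ℚ)
    (hsupp : ∀ x : ZMod n, ((n / p : ℕ) : ZMod n) * x = 0 → γ x = 0)
    (havg : ∀ x : ZMod n, ∑ y ∈ univ.filter
      (fun y : ZMod n => ((p ^ f : ℕ) : ZMod n) * y = ((p ^ f : ℕ) : ZMod n) * x), γ y = 0)
    (χ : DirichletCharacter ℂ n) (hχ : χ.conductor ∣ n') (x : ZMod n) : DET_tw n χ γ x = 0 := by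
  classical
  have hd : n' ∣ n := ⟨p ^ f, by rw [hn, mul_comm]⟩
  by_cases hx : ((n / p : ℕ) : ZMod n) * x = 0
  · unfold DET_tw
    refine sum_eq_zero fun u _ => ?_
    rw [hsupp _ (by rw [mul_left_comm, hx, mul_zero])]
    simp
  set K : Finset (ZMod n)ˣ := univ.filter (fun k => ZMod.unitsMap hd k = 1) with hKd
  have hK : ∀ k, k ∈ K ↔ ZMod.unitsMap hd k = 1 := fun k => by simp [hKd]
  have hχK : ∀ k ∈ K, χ (k : ZMod n) = 1 := by
    intro k hk
    have h1 : χ.FactorsThrough n' :=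
      (DirichletCharacter.mem_conductorSet_iff χ).1
        ((DirichletCharacter.mem_conductorSet_iff_conductor_dvd χ hd).2 hχ)
    have h2 := (DirichletCharacter.factorsThrough_iff_ker_unitsMap hd).1 h1
    have h3 : k ∈ (ZMod.unitsMap hd).ker := (hK k).1 hk
    have h4 : χ.toUnitHom k = 1 := h2 h3
    have h5 := congrArg (fun u : ℂˣ => (u : ℂ)) h4
    simpa using h5
  have hsum : ∑ k ∈ K, DET_tw n χ γ ((k : ZMod n) * x) = 0 := by
    unfold DET_tw
    rw [sum_comm]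
    refine sum_eq_zero fun u _ => ?_
    rw [← mul_sum]
    have h1 : ∑ k ∈ K, γ ((u : ZMod n) * ((k : ZMod n) * x)) = 0 := by
      have h2 := DET_orbit n p f n' hp hf hn hd γ hsupp ((u : ZMod n) * x) (by
        intro h
        apply hx
        have : (u : ZMod n) * (((n / p : ℕ) : ZMod n) * x) = 0 := by rw [← h]; ring
        exact (Units.mul_right_eq_zero u).1 this) K hK
      rw [havg] at h2
      rw [← h2]
      refine sum_congr rfl fun k _ => ?_
      congr 1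
      ring
    have h2 : ∑ k ∈ K, ((γ ((u : ZMod n) * ((k : ZMod n) * x)) : ℚ) : ℂ) = 0 := by
      exact_mod_cast h1
    rw [h2, mul_zero]
  have h1 : ∑ k ∈ K, DET_tw n χ γ ((k : ZMod n) * x) = (K.card : ℂ) * DET_tw n χ γ x := by
    rw [sum_congr rfl (fun k hk => by rw [DET_mul, hχK k hk, one_mul])]
    simp
  rw [h1] at hsum
  have hKne : (K.card : ℂ) ≠ 0 := by
    have : 1 ∈ K := (hK 1).2 (map_one _)
    exact_mod_cast (Finset.card_pos.2 ⟨1, this⟩).ne'
  exact (mul_eq_zero.1 hsum).resolve_left hKne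

theorem detectB (n p f n' : ℕ) [NeZero n] (hp : p.Prime) (hf : 0 < f) (hn : n = p ^ f * n')
    (hpn : ¬ p ∣ n') (γ : ZMod n → ℚ) (hodd : ∀ x, γ (-x) = -γ x)
    (hdist : ∀ q : ℕ, q.Prime → q ∣ n' → DistAt n q γ)
    (hsupp : ∀ x : ZMod n, ((n / p : ℕ) : ZMod n) * x = 0 → γ x = 0)
    (havg : ∀ x : ZMod n, ∑ y ∈ univ.filter
      (fun y : ZMod n => ((p ^ f : ℕ) : ZMod n) * y = ((p ^ f : ℕ) : ZMod n) * x), γ y = 0)
    {ι : Type} [Fintype ι] (a : ι → ZMod n) (ha : Rel n a)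
    (hap : ∀ i, ((n / p : ℕ) : ZMod n) * a i ≠ 0) : ∑ i, γ (a i) = 0 := by
  have hn0 : 0 < n := Nat.pos_of_ne_zero (NeZero.ne n)
  have hpn0 : p ∣ n := by
    rw [hn]; exact Dvd.dvd.mul_right (dvd_pow_self p hf.ne') _
  have hn'0 : 0 < n' := by
    rcases Nat.eq_zero_or_pos n' with h0 | h0
    · rw [h0] at hn; omega
    · exact h0
  have hd : n' ∣ n := ⟨p ^ f, by rw [hn, mul_comm]⟩
  refine DET_concl n γ a fun χ => ?_
  rcases χ.even_or_odd with hχ | hχ
  · exact sum_eq_zero fun i _ => DET_even n χ γ hodd hχ _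
  by_cases hpc : p ∣ χ.conductor
  swap
  · have hc : χ.conductor ∣ n' := by
      have h1 : χ.conductor ∣ p ^ f * n' := by rw [← hn]; exact χ.conductor_dvd_level
      exact (Nat.Coprime.pow_right f ((Nat.Prime.coprime_iff_not_dvd hp).2 hpc).symm).dvd_of_dvd_mul_left h1
    exact sum_eq_zero fun i _ => DET_prime_to n p f n' hp hf hn hpn γ hsupp havg χ hc _
  -- the conductor is `p ^ j * c'`
  obtain ⟨j, c', hc', hcc⟩ := Nat.exists_eq_pow_mul_and_not_dvd (n := χ.conductor) (by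
    intro h
    have := χ.conductor_dvd_level
    rw [h] at this
    exact hn0.ne' (zero_dvd_iff.1 this)) p hp.ne_one
  have hcn : p ^ j * c' ∣ p ^ f * n' := by rw [← hcc, ← hn]; exact χ.conductor_dvd_level
  have hjf : p ^ j ∣ p ^ f := by
    refine Nat.Coprime.dvd_of_dvd_mul_right ?_ ((Dvd.intro _ rfl : p ^ j ∣ p ^ j * c').trans hcn)
    exact Nat.Coprime.pow_left _ ((Nat.Prime.coprime_iff_not_dvd hp).2 hpn)
  have hcn' : c' ∣ n' := by
    refine Nat.Coprime.dvd_of_dvd_mul_left ?_ ((Dvd.intro_left _ rfl : c' ∣ p ^ j * c').trans hcn)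
    exact Nat.Coprime.pow_right _ ((Nat.Prime.coprime_iff_not_dvd hp).2 hc').symm
  have hordn : ∀ x : ZMod n, addOrderOf x ∣ n := fun x => by
    have := addOrderOf_dvd_card (x := x)
    rwa [ZMod.card] at this
  -- exact `p`-order
  have hpord : ∀ x : ZMod n, ((n / p : ℕ) : ZMod n) * x ≠ 0 → p ^ f ∣ addOrderOf x := by
    intro x hx
    have h1 : ¬ addOrderOf x ∣ n / p := by
      intro h
      apply hx
      have := (addOrderOf_dvd_iff_nsmul_eq_zero (x := x) (n := n / p)).1 h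
      rwa [nsmul_eq_mul] at this
    obtain ⟨k, hk⟩ := hordn x
    have h2 : ¬ p ∣ k := by
      rintro ⟨k', rfl⟩
      apply h1
      refine ⟨k', ?_⟩
      have : n / p = addOrderOf x * k' := by
        conv_lhs => rw [hk]
        rw [show addOrderOf x * (p * k') = p * (addOrderOf x * k') by ring]
        exact Nat.mul_div_cancel_left _ hp.pos
      exact this
    have h3 : p ^ f ∣ addOrderOf x * k := by rw [← hk, hn]; exact Dvd.intro _ rfl
    exact (Nat.Coprime.pow_left f ((Nat.Prime.coprime_iff_not_dvd hp).2 h2)).dvd_of_dvd_mul_right h3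
  have hprime : ∀ q : ℕ, q.Prime → q ∣ n' → ∀ x : ZMod n, ((n / p : ℕ) : ZMod n) * x ≠ 0 →
      ((n / p : ℕ) : ZMod n) * (q * x) ≠ 0 := by
    intro q hq hqn x hx h
    apply hx
    have hpq : Nat.Coprime p q := by
      rw [Nat.coprime_primes hp hq]
      rintro rfl
      exact hpn hqn
    obtain ⟨s, t, hst⟩ := hpq.isCoprime
    have h1 : ((p : ℕ) : ZMod n) * ((n / p : ℕ) : ZMod n) = 0 := by
      rw [← Nat.cast_mul, Nat.mul_div_cancel' hpn0, ZMod.natCast_self]
    have h2 : (s : ZMod n) * ((p : ℕ) : ZMod n) + (t : ZMod n) * ((q : ℕ) : ZMod n) = 1 := by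
      have := congrArg (fun t : ℤ => (t : ZMod n)) hst
      push_cast at this
      exact this
    linear_combination (-(((n / p : ℕ) : ZMod n) * x)) * h2 + (s : ZMod n) * x * h1 + (t : ZMod n) * h
  refine DET_prop n χ hχ {q | q.Prime ∧ q ∣ n'} {x | ((n / p : ℕ) : ZMod n) * x ≠ 0}
    (fun q hq => ⟨hq.1, hq.2.trans hd⟩) ?_ ?_ ?_ γ (fun q hq => hdist q hq.1 hq.2)
    (p ^ f * c') ?_ ?_ ?_ ?_ a ha hap
  · intro u x hx h
    apply hx
    have : (u : ZMod n) * (((n / p : ℕ) : ZMod n) * x) = 0 := by rw [← h]; ring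
    exact (Units.mul_right_eq_zero u).1 this
  · intro q hq x hx y hy h
    refine hprime q hq.1 hq.2 x hx ?_
    rw [← hy, mul_left_comm, h, mul_zero]
  · intro q hq x hx
    exact hprime q hq.1 hq.2 x hx
  · intro x hx hcx hq
    obtain ⟨m, hm⟩ := hpord x hx
    rw [hcc] at hcx
    have h1 : c' ∣ m := by
      refine Nat.Coprime.dvd_of_dvd_mul_left ?_ (((Dvd.intro_left _ rfl : c' ∣ p ^ j * c').trans hcx).trans
        (dvd_of_eq hm))
      exact Nat.Coprime.pow_right _ ((Nat.Prime.coprime_iff_not_dvd hp).2 hc').symm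
    obtain ⟨k, hk⟩ := h1
    by_contra hne
    have hk1 : k ≠ 1 := by rintro rfl; rw [mul_one] at hk; rw [hk] at hm; exact hne hm
    obtain ⟨q, hqp, k', rfl⟩ := Nat.exists_prime_and_dvd hk1
    have hmn : m ∣ n' := by
      have : p ^ f * m ∣ p ^ f * n' := by rw [← hm, ← hn]; exact hordn x
      exact (Nat.mul_dvd_mul_iff_left (pow_pos hp.pos f)).1 this
    have hqm : q ∣ m := by rw [hk]; exact ⟨c' * k', by ring⟩
    have hqM : q ∣ addOrderOf x := by rw [hm]; exact Dvd.dvd.mul_left hqm _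
    refine hq q ⟨hqp, hqm.trans hmn⟩ hqM ?_
    rw [hm, hk, hcc, show p ^ f * (c' * (q * k')) = q * (p ^ f * c' * k') by ring,
      Nat.mul_div_cancel_left _ hqp.pos]
    exact Dvd.dvd.mul_right (Nat.mul_dvd_mul_right hjf c') _
  · rw [hn]; exact Nat.mul_dvd_mul_left _ hcn'
  · rw [hcc]; exact Nat.mul_dvd_mul_right hjf c'
  · intro r hr h
    rcases (Nat.Prime.dvd_mul hr).1 h with h1 | h1
    · have := (Nat.prime_dvd_prime_iff_eq hr hp).1 (hr.dvd_of_dvd_pow h1)
      rw [this]; exact hpc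
    · rw [hcc]; exact Dvd.dvd.mul_left h1 _

end Pool.Agent.helper34.EL
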